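import Pool.Agent.Q298.Gap.Main

/-!
# Processes which mimic the sine process have unbounded gaps

No point process with uniform local moments which mimics the sine process at bandwidth `1` (in fact
at any bandwidth `B > 0`) has almost surely bounded gaps. So the infimum `λ` of the problem is
`+∞`. Moreover every bounded interval is free of points with positive probability.

Outline of the proof. Suppose that almost surely some point lies in `[-L, L]`. Let
`w(x) = (1 - λ η(b x / n)) ^ (2 n)`, with a band limited bump `0 ≤ η ≤ 1`, `η(0) = 1`, and let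
`q ≥ 0` be band limited, with `q ≥ 1` on `[-L, L]`. The functions `w - 1` and `w (1 + q) - 1` are
band limited, so the expectations `D(w)` and `D(w (1 + q))` of the products of `w(u_j)` and of
`w(u_j) (1 + q(u_j))` are those of the sine process. As `∏ (1 + q(u_j)) ≥ 1 + ∑ q(u_j) ≥ 2`, we
have `D(w (1 + q)) ≥ 2 D(w) > 0`. For the sine process the ratio `D(w (1 + q)) / D(w)` is at most
`exp ∫ q(x) K(x) dx`, where `K(x)` is the supremum of `w(x) |f(x)|²` over the functions `f` with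
Fourier support in `[-1/2, 1/2]` and `∫ w |f|² = 1`. Always `K(x) ≤ 2`, and `K(x) ≤ 2 exp (-2 n)`
for `|x| ≤ r n` by a theorem of Phragmén-Lindelöf type on the growth of such functions on
`[-n, n]`. Hence the ratio tends to `1` as `n → ∞`, a contradiction.
-/

set_option autoImplicit false

namespace Pool.Agent.Results.MP_dc5c84_pr.UnboundedGaps

open MeasureTheory Filter
open scoped FourierTransform SchwartzMap ENNReal

universe u

/-- A point process on `ℝ`, defined on a measurable space `Ω`: the point with index `j` exists on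
the event `live j`, and there it has the position `pos j`. Several points may have the same
position (local finiteness follows from `ULM` below). -/
structure PointProcess (Ω : Type u) [MeasurableSpace Ω] where
  live : ℕ → Set Ω
  pos : ℕ → Ω → ℝ
  measurableSet_live : ∀ j, MeasurableSet (live j)
  measurable_pos : ∀ j, Measurable (pos j)

variable {Ω : Type u} [MeasurableSpace Ω]

/-- The number of points in the set `A`. -/
noncomputable def PointProcess.count (X : PointProcess Ω) (A : Set ℝ) (ω : Ω) : ℝ≥0∞ :=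
  ∑' j, (X.live j ∩ X.pos j ⁻¹' A).indicator 1 ω

/-- Uniform local moments: `sup_x E [#(u ∩ [x, x + 1]) ^ k] < ∞` for all `k ≥ 1`. -/
def PointProcess.ULM (X : PointProcess Ω) (P : Measure Ω) : Prop :=
  ∀ k : ℕ, 1 ≤ k → ∃ C : ℝ≥0∞, C ≠ ∞ ∧ ∀ x : ℝ,
    ∫⁻ ω, X.count (Set.Icc x (x + 1)) ω ^ k ∂P ≤ C

/-- The sum of `η` over the `n`-tuples of points with pairwise distinct indices. -/
noncomputable def PointProcess.sumDistinct (X : PointProcess Ω) (n : ℕ)
    (η : EuclideanSpace ℝ (Fin n) → ℂ) (ω : Ω) : ℂ :=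
  ∑' f : Fin n ↪ ℕ, {ω | ∀ i, ω ∈ X.live (f i)}.indicator
    (fun ω => η (WithLp.toLp 2 fun i => X.pos (f i) ω)) ω

/-- The `n`-point correlation function `det [S(x_i - x_j)]`, `S(x) = sin (π x) / (π x)`, of the
sine process. -/
noncomputable def sineCorrelation (n : ℕ) (x : EuclideanSpace ℝ (Fin n)) : ℝ :=
  (Matrix.of fun i j : Fin n => Real.sinc (Real.pi * (x i - x j))).det

/-- The point process mimics the sine process at bandwidth `B`. -/
def PointProcess.MimicsSine (X : PointProcess Ω) (P : Measure Ω) (B : ℝ) : Prop :=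
  ∀ n : ℕ, 1 ≤ n → ∀ η : 𝓢(EuclideanSpace ℝ (Fin n), ℂ),
    tsupport (𝓕 η : 𝓢(EuclideanSpace ℝ (Fin n), ℂ)) ⊆ {ξ | ∀ i, ξ i ∈ Set.Icc (-B) B} →
    ∫ ω, X.sumDistinct n η ω ∂P =
      ∫ x : EuclideanSpace ℝ (Fin n), η x * (sineCorrelation n x : ℂ)

/-- The points of the configuration `ω` can be indexed by `ℤ` in nondecreasing order, and the
consecutive gaps are at most `ℓ`. -/
def PointProcess.GapsAtMost (X : PointProcess Ω) (ℓ : ℝ) (ω : Ω) : Prop :=
  ∃ e : ℤ ≃ {j : ℕ // ω ∈ X.live j},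
    (∀ i : ℤ, X.pos (e i) ω ≤ X.pos (e (i + 1)) ω) ∧
    ∀ i : ℤ, |X.pos (e (i + 1)) ω - X.pos (e i) ω| ≤ ℓ

/-- The infimum `λ` of the problem, an extended real number, with `inf ∅ = +∞`. -/
noncomputable def lambda : EReal :=
  sInf ((fun ℓ : ℝ => (ℓ : EReal)) '' {ℓ : ℝ | ∃ (Ω : Type u) (_ : MeasurableSpace Ω)
    (P : Measure Ω) (_ : IsProbabilityMeasure P) (X : PointProcess Ω),
    X.ULM P ∧ X.MimicsSine P 1 ∧ ∀ᵐ ω ∂P, X.GapsAtMost ℓ ω})

/-- Almost surely the configuration is locally finite. -/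
theorem locally_finite (X : PointProcess Ω) (P : Measure Ω) (hulm : X.ULM P) :
    ∀ᵐ ω ∂P, ∀ R : ℝ, {j : ℕ | ω ∈ X.live j ∧ |X.pos j ω| ≤ R}.Finite := by
  obtain ⟨C, hC, h⟩ := hulm 1 le_rfl
  simp_rw [pow_one] at h
  have hm : ∀ x : ℝ, Measurable (X.count (Set.Icc x (x + 1))) := by
    intro x
    apply Measurable.tsum
    intro j
    exact measurable_one.indicator ((X.measurableSet_live j).inter
      ((X.measurable_pos j) measurableSet_Icc))
  have h1 : ∀ᵐ ω ∂P, ∀ m : ℤ, X.count (Set.Icc (m : ℝ) (m + 1)) ω ≠ ∞ := by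
    rw [ae_all_iff]
    intro m
    have h2 := ae_lt_top (hm m) (ne_top_of_le_ne_top hC (h m))
    filter_upwards [h2] with ω hω using hω.ne
  filter_upwards [h1] with ω hω R
  have h3 : ∀ m : ℤ, {j : ℕ | (1 : ℝ≥0∞) ≤
      (X.live j ∩ X.pos j ⁻¹' Set.Icc (m : ℝ) (m + 1)).indicator 1 ω}.Finite := fun m =>
    ENNReal.finite_const_le_of_tsum_ne_top (hω m) one_ne_zero
  have h4 : (⋃ m ∈ Set.Icc (-(⌈|R|⌉) - 1) ⌈|R|⌉, {j : ℕ | (1 : ℝ≥0∞) ≤
      (X.live j ∩ X.pos j ⁻¹' Set.Icc (m : ℝ) (m + 1)).indicator 1 ω}).Finite :=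
    (Set.finite_Icc _ _).biUnion fun m _ => h3 m
  refine h4.subset ?_
  rintro j ⟨hj, hjR⟩
  rw [Set.mem_iUnion₂]
  have hR : |X.pos j ω| ≤ |R| := hjR.trans (le_abs_self R)
  have hR2 : |R| ≤ ⌈|R|⌉ := Int.le_ceil _
  have h5 := abs_le.mp hR
  refine ⟨⌊X.pos j ω⌋, ⟨?_, ?_⟩, ?_⟩
  · have h6 : (-(⌈|R|⌉) - 1 : ℝ) < ⌊X.pos j ω⌋ := by
      have := Int.lt_floor_add_one (X.pos j ω)
      linarith
    have h7 : (-(⌈|R|⌉) - 1 : ℤ) < ⌊X.pos j ω⌋ := by exact_mod_cast h6
    exact h7.le
  · have h6 : (⌊X.pos j ω⌋ : ℝ) ≤ ⌈|R|⌉ := by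
      have := Int.floor_le (X.pos j ω)
      linarith
    exact_mod_cast h6
  · change (1 : ℝ≥0∞) ≤ _
    rw [Set.indicator_of_mem]
    · simp
    · exact ⟨hj, Int.floor_le _, (Int.lt_floor_add_one _).le⟩

/-- If the gaps are at most `ℓ`, then some point lies in `[0, ℓ]`. -/
theorem exists_point (X : PointProcess Ω) (ℓ : ℝ) (ω : Ω)
    (hfin : ∀ R : ℝ, {j : ℕ | ω ∈ X.live j ∧ |X.pos j ω| ≤ R}.Finite)
    (hgap : X.GapsAtMost ℓ ω) : ∃ j, ω ∈ X.live j ∧ 0 ≤ X.pos j ω ∧ X.pos j ω ≤ ℓ := by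
  obtain ⟨e, hmono, hle⟩ := hgap
  set v : ℤ → ℝ := fun i => X.pos (e i) ω with hv
  have hvm : Monotone v := monotone_int_of_le_succ hmono
  have hinf : ∀ (R : ℝ) (g : ℕ → ℤ), Function.Injective g → ¬ ∀ n, |v (g n)| ≤ R := by
    intro R g hg hcon
    have h1 : Set.range (fun n : ℕ => ((e (g n) : {j : ℕ // ω ∈ X.live j}) : ℕ)) ⊆
        {j : ℕ | ω ∈ X.live j ∧ |X.pos j ω| ≤ R} := by
      rintro _ ⟨n, rfl⟩
      exact ⟨(e (g n)).2, hcon n⟩
    have h2 : (Set.range (fun n : ℕ => ((e (g n) : {j : ℕ // ω ∈ X.live j}) : ℕ))).Infinite := by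
      apply Set.infinite_range_of_injective
      exact Subtype.val_injective.comp (e.injective.comp hg)
    exact h2 ((hfin R).subset h1)
  have hup : ∃ i, 0 < v i := by
    by_contra hcon
    push Not at hcon
    apply hinf |v 0| (fun n : ℕ => (n : ℤ)) Nat.cast_injective
    intro n
    have h1 : v 0 ≤ v n := hvm (by positivity)
    rw [abs_of_nonpos (hcon _), abs_of_nonpos (hcon _)]
    linarith
  have hdown : ∃ i, v i ≤ 0 := by
    by_contra hcon
    push Not at hcon
    apply hinf |v 0| (fun n : ℕ => -(n : ℤ)) (neg_injective.comp Nat.cast_injective)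
    intro n
    have h1 : v (-(n : ℤ)) ≤ v 0 := hvm (by
      have : (0 : ℤ) ≤ n := Int.natCast_nonneg n
      omega)
    rw [abs_of_pos (hcon _), abs_of_pos (hcon _)]
    exact h1
  obtain ⟨i1, hi1⟩ := hup
  obtain ⟨i, hi, himax⟩ := Int.exists_greatest_of_bdd (P := fun z => v z ≤ 0)
    ⟨i1, fun z hz => by
      by_contra hcon
      rw [not_le] at hcon
      have := hvm hcon.le
      linarith⟩ hdown
  have h1 : 0 < v (i + 1) := by
    by_contra hcon
    rw [not_lt] at hcon
    have := himax (i + 1) hcon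
    omega
  refine ⟨e (i + 1), (e (i + 1)).2, h1.le, ?_⟩
  have h2 := (abs_le.mp (hle i)).2
  have h3 : v (i + 1) - v i ≤ ℓ := h2
  have h4 : v (i + 1) ≤ ℓ := by linarith
  exact h4

/-- A process which mimics the sine process does not hit an interval almost surely. -/
theorem not_hit (X : PointProcess Ω) (P : Measure Ω) [IsProbabilityMeasure P] (hulm : X.ULM P)
    (B : ℝ) (hB : 0 < B) (hmim : X.MimicsSine P B) (L : ℝ) :
    ¬ ∀ᵐ ω ∂P, ∃ j, ω ∈ X.live j ∧ |X.pos j ω| ≤ L := by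
  intro hhit
  refine Q298.Gap.no_hit P X.live X.pos X.measurableSet_live X.measurable_pos hulm B hB (max L 1)
    (lt_of_lt_of_le one_pos (le_max_right _ _)) ?_ ?_
  · filter_upwards [hhit] with ω hω
    obtain ⟨j, hj, hjL⟩ := hω
    exact ⟨j, hj, hjL.trans (le_max_left _ _)⟩
  · intro n hn η hη
    apply hmim n hn η
    apply closure_minimal
    · intro ξ hξ i
      exact abs_le.mp (hη ξ hξ i)
    · have h : {ξ : EuclideanSpace ℝ (Fin n) | ∀ i, ξ i ∈ Set.Icc (-B) B} =
          ⋂ i, (fun ξ : EuclideanSpace ℝ (Fin n) => ξ i) ⁻¹' Set.Icc (-B) B := by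
        ext ξ
        simp
      rw [h]
      exact isClosed_iInter fun i => isClosed_Icc.preimage (by fun_prop)

/-- **Theorem.** (1) No process of the class `T_1` has almost surely all its gaps bounded by a
constant. (2) The infimum `λ` is `+∞`. (3) More generally, for every bandwidth `B > 0`, a process
with uniform local moments which mimics the sine process at bandwidth `B` has, with positive
probability, no point in the given bounded interval `[-L, L]`, and its gaps are not almost surely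
bounded by a constant. -/
theorem result :
    (∀ (Ω : Type u) (_ : MeasurableSpace Ω) (P : Measure Ω) (_ : IsProbabilityMeasure P)
      (X : PointProcess Ω), X.ULM P → X.MimicsSine P 1 → ∀ ℓ : ℝ,
        ¬ ∀ᵐ ω ∂P, X.GapsAtMost ℓ ω) ∧
    lambda.{u} = ⊤ ∧
    (∀ (Ω : Type u) (_ : MeasurableSpace Ω) (P : Measure Ω) (_ : IsProbabilityMeasure P)
      (X : PointProcess Ω), X.ULM P → ∀ B : ℝ, 0 < B → X.MimicsSine P B →
        (∀ L : ℝ, 0 < P {ω | X.count (Set.Icc (-L) L) ω = 0}) ∧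
        ∀ ℓ : ℝ, ¬ ∀ᵐ ω ∂P, X.GapsAtMost ℓ ω) := by
  have main : ∀ (Ω : Type u) (_ : MeasurableSpace Ω) (P : Measure Ω) (_ : IsProbabilityMeasure P)
      (X : PointProcess Ω), X.ULM P → ∀ B : ℝ, 0 < B → X.MimicsSine P B →
        (∀ L : ℝ, 0 < P {ω | X.count (Set.Icc (-L) L) ω = 0}) ∧
        ∀ ℓ : ℝ, ¬ ∀ᵐ ω ∂P, X.GapsAtMost ℓ ω := by
    intro Ω _ P _ X hulm B hB hmim
    constructor
    · intro L
      rw [pos_iff_ne_zero]
      intro h0
      apply not_hit X P hulm B hB hmim L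
      have h1 : ∀ᵐ ω ∂P, ω ∉ {ω | X.count (Set.Icc (-L) L) ω = 0} :=
        measure_eq_zero_iff_ae_notMem.mp h0
      filter_upwards [h1] with ω hω
      by_contra hcon
      push Not at hcon
      apply hω
      unfold PointProcess.count
      rw [ENNReal.tsum_eq_zero]
      intro j
      apply Set.indicator_of_notMem
      rintro ⟨hj, hjL⟩
      have h2 := hcon j hj
      have h3 : |X.pos j ω| ≤ L := abs_le.mpr hjL
      linarith
    · intro ℓ hgap
      apply not_hit X P hulm B hB hmim ℓ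
      filter_upwards [hgap, locally_finite X P hulm] with ω h1 h2
      obtain ⟨j, hj, h3, h4⟩ := exists_point X ℓ ω h2 h1
      exact ⟨j, hj, by rw [abs_of_nonneg h3]; exact h4⟩
  refine ⟨fun Ω i1 P i2 X hulm hmim ℓ => (main Ω i1 P i2 X hulm 1 one_pos hmim).2 ℓ, ?_, main⟩
  unfold lambda
  have hempty : {ℓ : ℝ | ∃ (Ω : Type u) (_ : MeasurableSpace Ω)
      (P : Measure Ω) (_ : IsProbabilityMeasure P) (X : PointProcess Ω),
      X.ULM P ∧ X.MimicsSine P 1 ∧ ∀ᵐ ω ∂P, X.GapsAtMost ℓ ω} = ∅ := by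
    rw [Set.eq_empty_iff_forall_notMem]
    rintro ℓ ⟨Ω, i1, P, i2, X, hulm, hmim, hgap⟩
    exact (main Ω i1 P i2 X hulm 1 one_pos hmim).2 ℓ hgap
  rw [hempty, Set.image_empty, sInf_empty]

end Pool.Agent.Results.MP_dc5c84_pr.UnboundedGaps
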